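import Mathlib

/-!
Difference between the hearing independent and the boundary independent
broadcast number: `i_h - i_bn` is unbounded, already on trees (caterpillars).
-/

namespace Pool.Agent.Results.MP_511249_co.Caterpillar

open Finset

section Defs

variable {V : Type} [Fintype V]

/-- Eccentricity of `v`. -/
noncomputable def ecc (G : SimpleGraph V) (v : V) : ℕ := univ.sup (fun u => G.dist v u)

/-- Broadcasts: `f v ≤ e(v)` for all `v` if the graph has more than one vertex, and `f v = 1` if
`v` is the only vertex. -/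
def IsBroadcast (G : SimpleGraph V) (f : V → ℕ) : Prop :=
  if Fintype.card V = 1 then ∀ v, f v = 1 else ∀ v, f v ≤ ecc G v

/-- `x` hears `f` from the broadcasting vertex `v`. -/
def Hears (G : SimpleGraph V) (f : V → ℕ) (x v : V) : Prop := 0 < f v ∧ G.dist x v ≤ f v

/-- Boundary independence. -/
def BnIndep (G : SimpleGraph V) (f : V → ℕ) : Prop :=
  ∀ x, (∃ u v, u ≠ v ∧ Hears G f x u ∧ Hears G f x v) → ∀ w, 0 < f w → f w ≤ G.dist x w

/-- Hearing independence. -/
def HearIndep (G : SimpleGraph V) (f : V → ℕ) : Prop :=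
  ∀ u v, u ≠ v → 0 < f u → 0 < f v → ¬ Hears G f u v

/-- `f` is a maximal broadcast with property `P`. -/
def IsMaximalBc (G : SimpleGraph V) (P : (V → ℕ) → Prop) (f : V → ℕ) : Prop :=
  IsBroadcast G f ∧ P f ∧ ∀ g, IsBroadcast G g → P g → (∀ v, f v ≤ g v) → g = f

/-- `i_bn(G)`: least cost of a maximal bn-independent broadcast. -/
noncomputable def ibn (G : SimpleGraph V) : ℕ :=
  sInf {c | ∃ f, IsMaximalBc G (BnIndep G) f ∧ ∑ v, f v = c}

/-- `i_h(G)`: least cost of a maximal hearing independent broadcast. -/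
noncomputable def ih (G : SimpleGraph V) : ℕ :=
  sInf {c | ∃ f, IsMaximalBc G (HearIndep G) f ∧ ∑ v, f v = c}

end Defs

section Generic

variable {V : Type} [Fintype V]

lemma dist_le_ecc (G : SimpleGraph V) (v u : V) : G.dist v u ≤ ecc G v :=
  Finset.le_sup (f := fun u => G.dist v u) (Finset.mem_univ u)

/-- There is always a maximal hearing independent broadcast, if there are at least two vertices. -/
lemma exists_maximal (G : SimpleGraph V) (h2 : Fintype.card V ≠ 1) (P : (V → ℕ) → Prop)
    (h0 : P (fun _ => 0)) : ∃ f, IsMaximalBc G P f := by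
  classical
  let S : Set ℕ := {c | ∃ f, IsBroadcast G f ∧ P f ∧ ∑ v, f v = c}
  have hne : S.Nonempty := ⟨0, fun _ => 0, by simp [IsBroadcast, h2], h0, by simp⟩
  have hb : BddAbove S := by
    refine ⟨∑ v, ecc G v, ?_⟩
    rintro c ⟨f, hf, -, rfl⟩
    simp only [IsBroadcast, h2, if_false] at hf
    exact Finset.sum_le_sum fun v _ => hf v
  obtain ⟨f, hf1, hf2, hf3⟩ := Nat.sSup_mem hne hb
  refine ⟨f, hf1, hf2, fun g hg1 hg2 hle => ?_⟩
  have h1 : ∑ v, g v ≤ sSup S := le_csSup hb ⟨g, hg1, hg2, rfl⟩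
  rw [← hf3] at h1
  have h2 : ∑ v, f v = ∑ v, g v := le_antisymm (Finset.sum_le_sum fun v _ => hle v) h1
  have h3 := (Finset.sum_eq_sum_iff_of_le (fun v _ => hle v)).1 h2
  funext v
  exact (h3 v (Finset.mem_univ v)).symm

end Generic

/-- Vertices of the caterpillar: spine `0,…,3k-1`, and `m` leaves at each spine vertex `3i+1`. -/
abbrev CV (k m : ℕ) : Type := Fin (3 * k) ⊕ (Fin k × Fin m)

variable {k m : ℕ}

/-- Spine position. -/
def pos : CV k m → ℤ
  | Sum.inl p => (p.1 : ℤ)
  | Sum.inr x => 3 * (x.1.1 : ℤ) + 1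

/-- Height: `0` on the spine, `1` for leaves. -/
def ht : CV k m → ℤ
  | Sum.inl _ => 0
  | Sum.inr _ => 1

lemma ht_cases (v : CV k m) : ht v = 0 ∨ ht v = 1 := by
  rcases v with p | x <;> simp [ht]

/-- The distance function, in closed form. -/
def D (u v : CV k m) : ℤ := if u = v then 0 else |pos u - pos v| + ht u + ht v

/-- The caterpillar. -/
def G (k m : ℕ) : SimpleGraph (CV k m) where
  Adj u v := D u v = 1
  symm := ⟨fun u v h => by
    unfold D at *
    by_cases e : u = v
    · simp [e] at h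
    · rw [if_neg e] at h
      rw [if_neg (Ne.symm e)]
      rw [abs_sub_comm]; linarith⟩
  loopless := ⟨fun u h => by simp [D] at h⟩

lemma D_comm (u v : CV k m) : D u v = D v u := by
  unfold D
  by_cases e : u = v
  · simp [e]
  · rw [if_neg e, if_neg (Ne.symm e), abs_sub_comm]; ring

lemma D_nonneg (u v : CV k m) : 0 ≤ D u v := by
  unfold D
  split_ifs
  · exact le_refl _
  · have := abs_nonneg (pos u - pos v)
    rcases ht_cases u with h | h <;> rcases ht_cases v with h' | h' <;> rw [h, h'] <;> omega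

/-- A vertex is determined by its position if it is on the spine. -/
lemma spine_ext (u v : CV k m) (hu : ht u = 0) (hv : ht v = 0) (h : pos u = pos v) : u = v := by
  rcases u with p | x <;> rcases v with q | y
  · simp only [pos] at h
    congr 1
    exact Fin.ext (by exact_mod_cast h)
  · simp [ht] at hv
  · simp [ht] at hu
  · simp [ht] at hu

lemma D_pos (u v : CV k m) (h : u ≠ v) : 1 ≤ D u v := by
  unfold D
  rw [if_neg h]
  have := abs_nonneg (pos u - pos v)
  rcases ht_cases u with h1 | h1 <;> rcases ht_cases v with h2 | h2 <;> rw [h1, h2]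
  · have h3 : pos u ≠ pos v := fun e => h (spine_ext u v h1 h2 e)
    have := abs_pos.2 (sub_ne_zero.2 h3)
    omega
  all_goals omega

lemma D_of_spine (u v : CV k m) (hv : ht v = 0) : D u v = |pos u - pos v| + ht u := by
  unfold D
  split_ifs with h
  · subst h; simp [hv]
  · rw [hv]; ring

lemma pos_leaf (v : CV k m) (h : ht v = 1) : ∃ i : Fin k, pos v = 3 * (i.1 : ℤ) + 1 := by
  rcases v with p | x
  · simp [ht] at h
  · exact ⟨x.1, rfl⟩

/-- `D` is 1-Lipschitz along edges. -/
lemma D_lip (u v w : CV k m) (h : (G k m).Adj u v) : D u w ≤ 1 + D v w := by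
  have h1 : D u v = 1 := h
  have huv : u ≠ v := h.ne
  by_cases e1 : u = w
  · subst e1
    have : D u u = 0 := by simp [D]
    have := D_nonneg v u
    omega
  by_cases e2 : v = w
  · subst e2
    have : D v v = 0 := by simp [D]
    omega
  unfold D at *
  rw [if_neg huv] at h1
  rw [if_neg e1, if_neg e2]
  have h3 := abs_sub_le (pos u) (pos v) (pos w)
  have h4 := abs_nonneg (pos u - pos v)
  rcases ht_cases u with hu | hu <;> rcases ht_cases v with hv | hv <;>
    simp only [hu, hv] at h1 ⊢ <;> omega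

lemma D_le_length {u v : CV k m} (p : (G k m).Walk u v) : D u v ≤ p.length := by
  induction p with
  | nil => simp [D]
  | cons h p ih =>
    rename_i a b c
    have := D_lip a b c h
    simp only [SimpleGraph.Walk.length_cons]
    push_cast
    omega

lemma step_exists (u v : CV k m) (h : u ≠ v) : ∃ u', (G k m).Adj u u' ∧ D u' v = D u v - 1 := by
  have key : ∀ u' : CV k m, ht u' = 0 → ht u = 0 → |pos u - pos u'| = 1 →
      |pos u' - pos v| = |pos u - pos v| - 1 →
      (G k m).Adj u u' ∧ D u' v = D u v - 1 := by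
    intro u' h1 h2 h3 h4
    refine ⟨?_, ?_⟩
    · show D u u' = 1
      rw [D_of_spine _ _ h1, h2, h3]; rfl
    · rw [D_comm u' v, D_comm u v, D_of_spine _ _ h1, D_of_spine _ _ h2, abs_sub_comm, h4,
        abs_sub_comm (pos u)]
      ring
  rcases u with p | x
  · have hp : pos (Sum.inl p : CV k m) = (p.1 : ℤ) := rfl
    have hpl := p.2
    have hv0 : 0 ≤ pos v ∧ pos v < 3 * (k : ℤ) := by
      rcases v with q | y
      · have := q.2
        simp only [pos]; omega
      · have := y.1.2
        simp only [pos]; omega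
    rcases lt_trichotomy (pos v) (p.1 : ℤ) with h1 | h1 | h1
    · have hp1 : 1 ≤ p.1 := by omega
      have hq : pos (Sum.inl ⟨p.1 - 1, by omega⟩ : CV k m) = (p.1 : ℤ) - 1 := by
        simp only [pos]; omega
      refine ⟨Sum.inl ⟨p.1 - 1, by omega⟩, key _ rfl rfl ?_ ?_⟩
      · rw [hp, hq, abs_eq (by norm_num)]; omega
      · rw [hp, hq, abs_of_nonneg (by omega), abs_of_nonneg (by omega)]
        omega
    · rcases v with q | y
      · exfalso
        apply h
        simp only [pos] at h1
        congr 1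
        exact Fin.ext (by omega)
      · refine ⟨Sum.inr y, ?_, ?_⟩
        · show D _ _ = 1
          unfold D
          rw [if_neg (by simp), hp, ← h1]
          simp [ht]
        · unfold D
          rw [if_pos rfl, if_neg (by simp), hp, ← h1]
          simp [ht]
    · have hq : pos (Sum.inl ⟨p.1 + 1, by omega⟩ : CV k m) = (p.1 : ℤ) + 1 := by
        simp only [pos]; omega
      refine ⟨Sum.inl ⟨p.1 + 1, by omega⟩, key _ rfl rfl ?_ ?_⟩
      · rw [hp, hq, abs_eq (by norm_num)]; omega
      · rw [hp, hq, abs_of_nonpos (by omega), abs_of_nonpos (by omega)]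
        omega
  · have hx := x.1.2
    let c : CV k m := Sum.inl ⟨3 * x.1.1 + 1, by omega⟩
    have hc : pos c = 3 * (x.1.1 : ℤ) + 1 := by simp [c, pos]
    have hc0 : ht c = 0 := rfl
    refine ⟨c, ?_, ?_⟩
    · show D _ _ = 1
      rw [D_of_spine _ _ hc0, hc]
      simp [pos, ht]
    · rw [D_comm c v, D_of_spine _ _ hc0, hc, D_comm]
      unfold D
      rw [if_neg (Ne.symm h)]
      simp only [pos, ht]
      ring

lemma exists_walk (n : ℕ) : ∀ u v : CV k m, D u v = n → ∃ p : (G k m).Walk u v, p.length = n := by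
  induction n with
  | zero =>
    intro u v h
    have : u = v := by
      by_contra e
      have := D_pos u v e
      simp at h
      omega
    subst this
    exact ⟨SimpleGraph.Walk.nil, rfl⟩
  | succ n ih =>
    intro u v h
    have huv : u ≠ v := by
      rintro rfl
      simp [D] at h
      omega
    obtain ⟨u', h1, h2⟩ := step_exists u v huv
    obtain ⟨p, hp⟩ := ih u' v (by rw [h2, h]; push_cast; ring)
    exact ⟨SimpleGraph.Walk.cons h1 p, by simp [hp]⟩

lemma connected (hk : 0 < k) : (G k m).Connected := by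
  have : Nonempty (CV k m) := ⟨Sum.inl ⟨0, by omega⟩⟩
  refine SimpleGraph.Connected.mk fun u v => ?_
  obtain ⟨p, -⟩ := exists_walk (D u v).toNat u v (by rw [Int.toNat_of_nonneg (D_nonneg u v)])
  exact ⟨p⟩

lemma dist_eq (hk : 0 < k) (u v : CV k m) : ((G k m).dist u v : ℤ) = D u v := by
  apply le_antisymm
  · obtain ⟨p, hp⟩ := exists_walk (D u v).toNat u v (by rw [Int.toNat_of_nonneg (D_nonneg u v)])
    have := SimpleGraph.dist_le p
    have h3 := Int.toNat_of_nonneg (D_nonneg u v)
    omega
  · obtain ⟨p, hp⟩ := (connected hk).exists_walk_length_eq_dist u v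
    rw [← hp]
    exact D_le_length p

/-! ### Lower bound -/

lemma ecc_lower (hk : 0 < k) (v : CV k m) : 3 * k ≤ 2 * ecc (G k m) v + 1 := by
  let a : CV k m := Sum.inl ⟨0, by omega⟩
  let b : CV k m := Sum.inl ⟨3 * k - 1, by omega⟩
  have h1 := dist_le_ecc (G k m) v a
  have h2 := dist_le_ecc (G k m) v b
  have h3 := dist_eq hk v a
  have h4 := dist_eq hk v b
  rw [D_of_spine v a rfl] at h3
  rw [D_of_spine v b rfl] at h4
  have ha : pos a = 0 := rfl
  have hb : pos b = 3 * (k : ℤ) - 1 := by simp only [b, pos]; omega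
  rw [ha] at h3
  rw [hb] at h4
  have h5 := le_abs_self (pos v - 0)
  have h6 := neg_abs_le (pos v - (3 * (k : ℤ) - 1))
  rcases ht_cases v with h | h <;> rw [h] at h3 h4 <;> omega

lemma count_le (S : Finset (Fin k)) (A B : ℤ)
    (hS : ∀ i ∈ S, A ≤ 3 * (i.1 : ℤ) ∧ 3 * (i.1 : ℤ) ≤ B) (hne : S.Nonempty) :
    3 * (S.card : ℤ) ≤ B - A + 3 ∧ (3 * (S.card : ℤ) = B - A + 3 → 3 ∣ A ∧ 3 ∣ B ∧
      ∀ i : Fin k, A ≤ 3 * (i.1 : ℤ) → 3 * (i.1 : ℤ) ≤ B → i ∈ S) := by
  let e : Fin k ↪ ℤ := ⟨fun i => (i.1 : ℤ), fun i j h => Fin.ext (by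
    have : (i.1 : ℤ) = j.1 := h
    exact_mod_cast this)⟩
  have he : ∀ i, e i = (i.1 : ℤ) := fun i => rfl
  obtain ⟨i0, hi0⟩ := hne
  have h0 := hS i0 hi0
  set lo : ℤ := -((-A) / 3) with hlo
  set hi : ℤ := B / 3 with hhi
  have hsub : S.map e ⊆ Finset.Icc lo hi := by
    intro z hz
    obtain ⟨i, h1, rfl⟩ := Finset.mem_map.1 hz
    have := hS i h1
    rw [Finset.mem_Icc, he]
    omega
  have hc := Finset.card_le_card hsub
  rw [Finset.card_map, Int.card_Icc] at hc
  refine ⟨by omega, fun heq => ⟨by omega, by omega, fun i h1 h2 => ?_⟩⟩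
  have h3 : S.map e = Finset.Icc lo hi := by
    apply Finset.eq_of_subset_of_card_le hsub
    rw [Finset.card_map, Int.card_Icc]
    omega
  have h4 : e i ∈ Finset.Icc lo hi := by
    rw [Finset.mem_Icc, he]
    omega
  rw [← h3] at h4
  exact (Finset.mem_map' e).1 h4

/-- Cluster of a vertex. -/
def cl : CV k m → Fin k
  | Sum.inl p => ⟨p.1 / 3, by have := p.2; omega⟩
  | Sum.inr x => x.1

lemma cl_spec (v : CV k m) : 3 * ((cl v).1 : ℤ) ≤ pos v ∧ pos v ≤ 3 * ((cl v).1 : ℤ) + 2 ∧
    (ht v = 1 → pos v = 3 * ((cl v).1 : ℤ) + 1) := by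
  rcases v with p | x
  · simp only [cl, pos, ht]
    refine ⟨by omega, by omega, fun h => by omega⟩
  · simp only [cl, pos, ht]
    refine ⟨by omega, by omega, fun h => by omega⟩

lemma lower_core (hk : 0 < k) (f : CV k m → ℕ)
    (H1 : ∀ u v, u ≠ v → 0 < f u → 0 < f v → (f v : ℤ) < D u v)
    (H2 : ∀ v, f v = 0 → ∃ u, 0 < f u ∧ D v u ≤ f u)
    (H3 : ∀ v, 0 < f v → ∃ u, u ≠ v ∧ 0 < f u ∧ D v u = f v + 1)
    (hm : ∑ v, f v < m) : 3 * k ≤ 2 * ∑ v, f v := by
  classical
  -- big broadcasters
  have hw : ∀ i : Fin k, ∃ u : CV k m, 0 < f u ∧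
      |pos u - (3 * (i.1 : ℤ) + 1)| + ht u + 1 ≤ f u := by
    intro i
    obtain ⟨j, hj⟩ : ∃ j : Fin m, f (Sum.inr (i, j)) = 0 := by
      by_contra hcon
      push Not at hcon
      have h1 : ∑ j : Fin m, 1 ≤ ∑ j : Fin m, f (Sum.inr (i, j)) :=
        Finset.sum_le_sum fun j _ => Nat.one_le_iff_ne_zero.2 (hcon j)
      have h2 : ∑ j : Fin m, f (Sum.inr (i, j)) ≤ ∑ v, f v := by
        rw [Fintype.sum_sum_type, Fintype.sum_prod_type]
        have := Finset.single_le_sum (f := fun i : Fin k => ∑ j : Fin m, f (Sum.inr (i, j)))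
          (fun _ _ => Nat.zero_le _) (Finset.mem_univ i)
        exact le_trans this (Nat.le_add_left _ _)
      simp at h1
      omega
    obtain ⟨u, hu0, hu⟩ := H2 _ hj
    refine ⟨u, hu0, ?_⟩
    have hne : (Sum.inr (i, j) : CV k m) ≠ u := by
      rintro rfl
      omega
    unfold D at hu
    rw [if_neg hne, abs_sub_comm] at hu
    simp only [pos, ht] at hu ⊢
    linarith
  choose w hw0 hw1 using hw
  have h4 : ∀ x, 0 < f x → w (cl x) = x := by
    intro x hx
    by_contra hne
    have h1 := H1 x (w (cl x)) (Ne.symm hne) hx (hw0 _)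
    unfold D at h1
    rw [if_neg (Ne.symm hne)] at h1
    have h2 := hw1 (cl x)
    have h3 := abs_sub_le (pos x) (3 * ((cl x).1 : ℤ) + 1) (pos (w (cl x)))
    rw [abs_sub_comm (3 * ((cl x).1 : ℤ) + 1)] at h3
    obtain ⟨h5, h6, h7⟩ := cl_spec x
    have h8 : |pos x - (3 * ((cl x).1 : ℤ) + 1)| + ht x ≤ 1 := by
      rcases ht_cases x with h | h
      · rw [h]
        rw [add_zero, abs_le]
        constructor <;> linarith
      · rw [h7 h, h]; simp
    linarith
  let N : CV k m → Finset (Fin k) := fun x => Finset.univ.filter fun i => w i = x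
  have hNmem : ∀ x i, i ∈ N x ↔ w i = x := fun x i => by simp [N]
  have hNsum : ∑ x, (N x).card = k := by
    have := Finset.card_eq_sum_card_fiberwise (s := (Finset.univ : Finset (Fin k)))
      (t := (Finset.univ : Finset (CV k m))) (f := w) (fun x _ => by simp)
    rw [Finset.card_univ, Fintype.card_fin] at this
    exact this.symm
  let h : CV k m → ℤ := fun x => 2 * (f x : ℤ) - 3 * ((N x).card : ℤ)
  have hh : ∀ x, h x = 2 * (f x : ℤ) - 3 * ((N x).card : ℤ) := fun x => rfl
  have h0 : ∀ x, f x = 0 → h x = 0 := by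
    intro x hx
    have : N x = ∅ := by
      rw [Finset.eq_empty_iff_forall_notMem]
      intro i hi
      have h1 := hw0 i
      rw [(hNmem x i).1 hi] at h1
      omega
    rw [hh, this, hx]; simp
  have hrange : ∀ x i, i ∈ N x →
      pos x - f x + ht x ≤ 3 * (i.1 : ℤ) ∧ 3 * (i.1 : ℤ) ≤ pos x + f x - ht x - 2 := by
    intro x i hi
    have h1 := hw1 i
    rw [(hNmem x i).1 hi] at h1
    have h2 := le_abs_self (pos x - (3 * (i.1 : ℤ) + 1))
    have h3 := neg_abs_le (pos x - (3 * (i.1 : ℤ) + 1))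
    constructor <;> linarith
  have hcnt : ∀ x, 0 < f x → 2 * ht x - 1 ≤ h x ∧ (h x = 2 * ht x - 1 →
      3 ∣ pos x - f x + ht x ∧ 3 ∣ pos x + f x - ht x - 2 ∧
      ∀ i : Fin k, pos x - f x + ht x ≤ 3 * (i.1 : ℤ) → 3 * (i.1 : ℤ) ≤ pos x + f x - ht x - 2 →
        w i = x) := by
    intro x hx
    obtain ⟨h1, h2⟩ := count_le (N x) _ _ (hrange x) ⟨cl x, (hNmem x _).2 (h4 x hx)⟩
    refine ⟨by rw [hh]; linarith, fun h3 => ?_⟩
    obtain ⟨h5, h6, h7⟩ := h2 (by rw [hh] at h3; linarith)
    exact ⟨h5, h6, fun i h8 h9 => (hNmem x i).1 (h7 i h8 h9)⟩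
  have hge : ∀ x, -1 ≤ h x := by
    intro x
    rcases Nat.eq_zero_or_pos (f x) with h1 | h1
    · rw [h0 x h1]; norm_num
    · have := (hcnt x h1).1
      rcases ht_cases x with h2 | h2 <;> rw [h2] at this <;> linarith
  -- partners
  have hpart : ∀ x, h x = -1 → ∃ y, 0 < f x ∧ 0 < f y ∧ ht x = 0 ∧ 1 ≤ h y ∧
      ((pos y = pos x + f x + 1 ∧ 3 ∣ pos y) ∨ (pos y = pos x - f x - 1 ∧ 3 ∣ pos y - 2)) := by
    intro x hx
    have hfx : 0 < f x := by
      rcases Nat.eq_zero_or_pos (f x) with h1 | h1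
      · rw [h0 x h1] at hx; norm_num at hx
      · exact h1
    have htx : ht x = 0 := by
      rcases ht_cases x with h2 | h2
      · exact h2
      · have := (hcnt x hfx).1
        rw [h2] at this; linarith
    obtain ⟨hA, hB, hall⟩ := (hcnt x hfx).2 (by rw [hx, htx]; norm_num)
    rw [htx] at hA hB hall
    obtain ⟨y, hne, hfy, hD⟩ := H3 x hfx
    have hfyx := H1 x y (Ne.symm hne) hfx hfy
    rw [hD] at hfyx
    rw [D_comm, D_of_spine y x htx] at hD
    obtain ⟨c1, c2, c3⟩ := cl_spec y
    have hwy := h4 y hfy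
    have hwy1 := hw1 (cl y)
    rw [hwy] at hwy1
    have hty : ht y = 0 := by
      rcases ht_cases y with h2 | h2
      · exact h2
      · exfalso
        have h5 := c3 h2
        rw [h2] at hD
        rcases abs_cases (pos y - pos x) with ⟨h6, _⟩ | ⟨h6, _⟩ <;> rw [h6] at hD <;> omega
    rw [hty] at hD hwy1
    have hNy : (N y).Nonempty := ⟨cl y, (hNmem y _).2 hwy⟩
    rcases abs_cases (pos y - pos x) with ⟨h6, _⟩ | ⟨h6, _⟩ <;> rw [h6] at hD
    · refine ⟨y, hfx, hfy, htx, ?_, Or.inl ⟨by linarith, by omega⟩⟩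
      have e1 : pos y = 3 * ((cl y).1 : ℤ) := by omega
      have e2 : |pos y - (3 * ((cl y).1 : ℤ) + 1)| = 1 := by
        rw [e1]; norm_num
      rw [e2] at hwy1
      have := (count_le (N y) (pos y) (pos y + f y - 2) ?_ hNy).1
      · rw [hh]; omega
      · intro i hi
        have h7 := hrange y i hi
        rw [hty] at h7
        refine ⟨?_, by linarith⟩
        by_contra hlt
        push Not at hlt
        have h8 := hall i (by omega) (by omega)
        rw [(hNmem y i).1 hi] at h8
        exact hne h8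
    · refine ⟨y, hfx, hfy, htx, ?_, Or.inr ⟨by linarith, by omega⟩⟩
      have e1 : pos y = 3 * ((cl y).1 : ℤ) + 2 := by omega
      have e2 : |pos y - (3 * ((cl y).1 : ℤ) + 1)| = 1 := by
        rw [e1]; norm_num
      rw [e2] at hwy1
      have := (count_le (N y) (pos y - f y) (pos y - 2) ?_ hNy).1
      · rw [hh]; omega
      · intro i hi
        have h7 := hrange y i hi
        rw [hty] at h7
        refine ⟨by linarith, ?_⟩
        by_contra hlt
        push Not at hlt
        have h8 := hall i (by omega) (by omega)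
        rw [(hNmem y i).1 hi] at h8
        exact hne h8
  have : Nonempty (CV k m) := ⟨Sum.inl ⟨0, by omega⟩⟩
  choose! φ hφ using hpart
  let S1 : Finset (CV k m) := Finset.univ.filter fun x => h x = -1
  have hS1 : ∀ x, x ∈ S1 ↔ h x = -1 := fun x => by simp [S1]
  have hinj : Set.InjOn φ S1 := by
    intro x hx y hy hxy
    have hx1 := hφ x ((hS1 x).1 hx)
    have hy1 := hφ y ((hS1 y).1 hy)
    rw [← hxy] at hy1
    by_contra hne
    obtain ⟨a1, a2, a3, a4, a5⟩ := hx1
    obtain ⟨b1, b2, b3, b4, b5⟩ := hy1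
    have d1 := H1 x y hne a1 b1
    have d2 := H1 y x (Ne.symm hne) b1 a1
    rw [D_of_spine x y b3, a3] at d1
    rw [D_of_spine y x a3, b3] at d2
    rcases a5 with ⟨a5, a6⟩ | ⟨a5, a6⟩ <;> rcases b5 with ⟨b5, b6⟩ | ⟨b5, b6⟩
    · have e1 : pos x - pos y = f y - f x := by linarith
      have e2 : pos y - pos x = f x - f y := by linarith
      rw [e1] at d1
      rw [e2] at d2
      rcases abs_cases ((f y : ℤ) - f x) with ⟨h6, _⟩ | ⟨h6, _⟩ <;> rw [h6] at d1 <;>
      rcases abs_cases ((f x : ℤ) - f y) with ⟨h7, _⟩ | ⟨h7, _⟩ <;> rw [h7] at d2 <;> omega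
    · omega
    · omega
    · have e1 : pos x - pos y = f x - f y := by linarith
      have e2 : pos y - pos x = f y - f x := by linarith
      rw [e1] at d1
      rw [e2] at d2
      rcases abs_cases ((f y : ℤ) - f x) with ⟨h6, _⟩ | ⟨h6, _⟩ <;> rw [h6] at d2 <;>
      rcases abs_cases ((f x : ℤ) - f y) with ⟨h7, _⟩ | ⟨h7, _⟩ <;> rw [h7] at d1 <;> omega
  have hpt : ∀ x, ((if x ∈ S1.image φ then 1 else 0) - (if x ∈ S1 then 1 else 0) : ℤ) ≤ h x := by
    intro x
    by_cases hxi : x ∈ S1.image φ
    · obtain ⟨z, hz, rfl⟩ := Finset.mem_image.1 hxi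
      have := (hφ z ((hS1 z).1 hz)).2.2.2.1
      rw [if_pos hxi]
      split_ifs <;> omega
    · rw [if_neg hxi]
      by_cases hx : x ∈ S1
      · rw [if_pos hx, (hS1 x).1 hx]; norm_num
      · rw [if_neg hx]
        have h1 := hge x
        have h2 : h x ≠ -1 := fun e => hx ((hS1 x).2 e)
        omega
  have hsum := Finset.sum_le_sum (s := Finset.univ) fun x _ => hpt x
  rw [Finset.sum_sub_distrib, Finset.sum_ite_mem, Finset.sum_ite_mem] at hsum
  simp only [Finset.univ_inter, Finset.sum_const, nsmul_eq_mul, mul_one] at hsum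
  rw [Finset.card_image_of_injOn hinj, sub_self] at hsum
  have hfin : ∑ x, h x = 2 * ((∑ v, f v : ℕ) : ℤ) - 3 * (k : ℤ) := by
    simp only [hh]
    rw [Finset.sum_sub_distrib, ← Finset.mul_sum, ← Finset.mul_sum]
    have : ((∑ x, (N x).card : ℕ) : ℤ) = (k : ℤ) := by rw [hNsum]
    push_cast at this ⊢
    rw [this]
  rw [hfin] at hsum
  omega

lemma card_ne_one (hk : 0 < k) : Fintype.card (CV k m) ≠ 1 := by
  simp only [Fintype.card_sum, Fintype.card_fin]
  omega

lemma lower (hk : 0 < k) (hm : 3 * k ≤ 2 * m) (f : CV k m → ℕ)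
    (hf : IsMaximalBc (G k m) (HearIndep (G k m)) f) : 3 * k ≤ 2 * ∑ v, f v + 1 := by
  classical
  by_contra hcon
  push Not at hcon
  obtain ⟨hb, hP, hmax⟩ := hf
  simp only [IsBroadcast, card_ne_one hk, if_false] at hb hmax
  have hle : ∀ v, f v ≤ ∑ v, f v := fun v =>
    Finset.single_le_sum (f := f) (fun _ _ => Nat.zero_le _) (Finset.mem_univ v)
  have hlt : ∀ v, f v + 1 ≤ ecc (G k m) v := by
    intro v
    have h1 := ecc_lower hk v
    have h2 := hle v
    omega
  have H1 : ∀ u v, u ≠ v → 0 < f u → 0 < f v → (f v : ℤ) < D u v := by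
    intro u v huv hu hv
    have h1 := hP u v huv hu hv
    rw [← dist_eq hk]
    simp only [Hears, not_and, not_le] at h1
    exact_mod_cast h1 hv
  have bump : ∀ v, ∃ u, u ≠ v ∧ 0 < f u ∧ (D v u ≤ f u ∨ D v u ≤ f v + 1) := by
    intro v
    by_contra hno
    push Not at hno
    have h1 := hmax (Function.update f v (f v + 1)) ?_ ?_ ?_
    · have h2 := congrFun h1 v
      rw [Function.update_self] at h2
      omega
    · intro x
      by_cases hx : x = v
      · subst hx; rw [Function.update_self]; exact hlt x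
      · rw [Function.update_of_ne hx]; exact hb x
    · rintro a b hab ha hb' ⟨_, hle'⟩
      by_cases hav : a = v
      · subst hav
        rw [Function.update_of_ne (Ne.symm hab)] at hb' hle'
        have h3 := (hno b (Ne.symm hab) hb').1
        rw [← dist_eq hk] at h3
        omega
      · rw [Function.update_of_ne hav] at ha
        by_cases hbv : b = v
        · subst hbv
          rw [Function.update_self] at hle'
          have h3 := (hno a hav ha).2
          rw [← dist_eq hk, SimpleGraph.dist_comm] at h3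
          omega
        · rw [Function.update_of_ne hbv] at hb' hle'
          exact hP a b hab ha hb' ⟨hb', hle'⟩
    · intro x
      by_cases hx : x = v
      · subst hx; rw [Function.update_self]; omega
      · rw [Function.update_of_ne hx]
  have hmain := lower_core hk f H1 ?_ ?_ (by omega)
  · omega
  · intro v hv
    obtain ⟨u, h1, h2, h3⟩ := bump v
    refine ⟨u, h2, ?_⟩
    rw [hv] at h3
    rcases h3 with h3 | h3
    · exact h3
    · push_cast at h3; omega
  · intro v hv
    obtain ⟨u, h1, h2, h3⟩ := bump v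
    refine ⟨u, h1, h2, ?_⟩
    have h4 := H1 v u (Ne.symm h1) hv h2
    have h5 := H1 u v h1 h2 hv
    rw [D_comm] at h5
    rcases h3 with h3 | h3 <;> omega

/-! ### Upper bound -/

/-- The pattern `1,2,1` on the bases. -/
def pat (p : ℕ) : ℕ :=
  if p % 9 = 1 then 1 else if p % 9 = 4 then 2 else if p % 9 = 7 then 1 else 0

/-- The cheap bn-independent broadcast. -/
def bc : CV k m → ℕ
  | Sum.inl p => pat p.1
  | Sum.inr _ => 0

lemma sum_pat (t : ℕ) : ∑ p ∈ Finset.range (9 * t), pat p = 4 * t := by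
  induction t with
  | zero => simp
  | succ t ih =>
    rw [show 9 * (t + 1) = 9 * t + 9 by ring]
    simp only [Finset.sum_range_succ, ih]
    have : ∀ r, pat (9 * t + r) = pat r := by
      intro r
      unfold pat
      rw [show (9 * t + r) % 9 = r % 9 by omega]
    simp only [this]
    have h0 : pat (9 * t) = 0 := by
      have := this 0
      rw [Nat.add_zero] at this
      rw [this]; rfl
    rw [h0]
    simp [pat]
    omega

lemma cost_bc (t m : ℕ) : ∑ v : CV (3 * t) m, bc v = 4 * t := by
  rw [Fintype.sum_sum_type]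
  simp only [bc, Finset.sum_const_zero, add_zero]
  rw [Fin.sum_univ_eq_sum_range (fun p => pat p), show 3 * (3 * t) = 9 * t by ring, sum_pat]

/-- Broadcasters of `bc` are pairwise far apart. -/
lemma bc_pair (u v : CV k m) (h : u ≠ v) (hu : 0 < bc u) (hv : 0 < bc v) :
    (bc u : ℤ) + bc v ≤ D u v := by
  rcases u with p | x
  · rcases v with q | y
    · have hne : p.1 ≠ q.1 := fun e => h (by rw [Fin.ext e])
      rw [D_of_spine _ _ rfl]
      simp only [pos, ht, bc, pat] at *
      rcases abs_cases ((p.1 : ℤ) - q.1) with ⟨h6, _⟩ | ⟨h6, _⟩ <;> rw [h6] <;>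
        split_ifs at * <;> omega
    · simp [bc] at hv
  · simp [bc] at hu

lemma upper (t : ℕ) (ht0 : 0 < t) :
    IsMaximalBc (G (3 * t) m) (BnIndep (G (3 * t) m)) bc := by
  have hk : 0 < 3 * t := by omega
  have hbc2 : ∀ v : CV (3 * t) m, bc v ≤ 2 := by
    intro v
    rcases v with p | x
    · simp only [bc, pat]; split_ifs <;> omega
    · simp [bc]
  refine ⟨?_, ?_, ?_⟩
  · simp only [IsBroadcast, card_ne_one hk, if_false]
    intro v
    have := ecc_lower hk v
    have := hbc2 v
    omega
  · rintro x ⟨u, v, huv, ⟨hu, hu'⟩, ⟨hv, hv'⟩⟩ w hw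
    by_cases hwu : w = u
    · subst hwu
      have h1 := bc_pair w v huv hu hv
      rw [← dist_eq hk] at h1
      have h2 := (connected (m := m) hk).dist_triangle (u := w) (v := x) (w := v)
      rw [SimpleGraph.dist_comm (u := w) (v := x)] at h2
      omega
    · have h1 := bc_pair w u hwu hw hu
      rw [← dist_eq hk] at h1
      have h2 := (connected (m := m) hk).dist_triangle (u := w) (v := x) (w := u)
      rw [SimpleGraph.dist_comm (u := w) (v := x)] at h2
      omega
  · intro g hg1 hg2 hle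
    -- helper: three vertices
    have key : ∀ x u v : CV (3 * t) m, u ≠ v → 0 < g u → 0 < g v → D x u ≤ g u → D x v < g v →
        False := by
      intro x u v huv hu hv h1 h2
      have h3 := hg2 x ⟨u, v, huv, ⟨hu, ?_⟩, ⟨hv, ?_⟩⟩ v hv
      · rw [← dist_eq hk] at h2
        omega
      · rw [← dist_eq hk] at h1
        omega
      · rw [← dist_eq hk] at h2
        omega
    -- spine vertex
    let sp : ∀ p : ℕ, p < 3 * (3 * t) → CV (3 * t) m := fun p hp => Sum.inl ⟨p, hp⟩
    have hsp : ∀ p hp, pos (sp p hp) = (p : ℤ) := fun p hp => rfl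
    have hspt : ∀ p hp, ht (sp p hp) = 0 := fun p hp => rfl
    have hspb : ∀ p hp, bc (sp p hp) = pat p := fun p hp => rfl
    have hdsp : ∀ p hp q hq, D (sp p hp) (sp q hq) = |(p : ℤ) - q| := by
      intro p hp q hq
      rw [D_of_spine _ _ (hspt q hq), hspt, hsp, hsp, add_zero]
    have hsne : ∀ p hp q hq, p ≠ q → sp p hp ≠ sp q hq := by
      intro p hp q hq hpq e
      have := congrArg pos e
      rw [hsp, hsp] at this
      omega
    funext v
    apply le_antisymm _ (hle v)
    by_contra hlt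
    push Not at hlt
    by_cases hv0 : bc v = 0
    · -- `v` hears some broadcaster
      have hdom : ∃ u, u ≠ v ∧ 0 < bc u ∧ D v u ≤ bc u := by
        rcases v with p | x
        · have hp := p.2
          have hpe : (Sum.inl p : CV (3 * t) m) = sp p.1 hp := rfl
          rw [hpe, hspb] at hv0
          rw [hpe]
          have hcase : p.1 % 9 < 3 ∨ (3 ≤ p.1 % 9 ∧ p.1 % 9 < 6) ∨ 6 ≤ p.1 % 9 := by omega
          rcases hcase with hc | hc | hc
          · have h1 : pat (9 * (p.1 / 9) + 1) = 1 := by simp only [pat]; split_ifs <;> omega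
            refine ⟨sp (9 * (p.1 / 9) + 1) (by omega), ?_, ?_, ?_⟩
            · apply hsne
              intro e
              rw [e] at h1
              omega
            · rw [hspb, h1]; norm_num
            · rw [hspb, hdsp, h1, abs_le]
              omega
          · have h1 : pat (9 * (p.1 / 9) + 4) = 2 := by simp only [pat]; split_ifs <;> omega
            refine ⟨sp (9 * (p.1 / 9) + 4) (by omega), ?_, ?_, ?_⟩
            · apply hsne
              intro e
              rw [e] at h1
              omega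
            · rw [hspb, h1]; norm_num
            · rw [hspb, hdsp, h1, abs_le]
              omega
          · have h1 : pat (9 * (p.1 / 9) + 7) = 1 := by simp only [pat]; split_ifs <;> omega
            refine ⟨sp (9 * (p.1 / 9) + 7) (by omega), ?_, ?_, ?_⟩
            · apply hsne
              intro e
              rw [e] at h1
              omega
            · rw [hspb, h1]; norm_num
            · rw [hspb, hdsp, h1, abs_le]
              omega
        · refine ⟨sp (3 * x.1.1 + 1) (by have := x.1.2; omega), ?_, ?_, ?_⟩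
          · simp [sp]
          · rw [hspb]; simp only [pat]; split_ifs <;> omega
          · rw [hspb, D_of_spine _ _ (hspt _ _), hsp]
            simp only [pos, ht, pat]
            push_cast
            rw [sub_self, abs_zero]
            split_ifs <;> omega
      obtain ⟨u, hu1, hu2, hu3⟩ := hdom
      have h5 := hle u
      exact key v u v hu1 (by omega) (by omega) (by omega) (by simp [D]; omega)
    · rcases v with p | x
      · have hp := p.2
        have hpe : (Sum.inl p : CV (3 * t) m) = sp p.1 hp := rfl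
        rw [hpe] at hv0 hlt
        rw [hspb] at hv0 hlt
        have hcase : p.1 % 9 = 1 ∨ p.1 % 9 = 4 ∨ p.1 % 9 = 7 := by
          simp only [pat] at hv0
          split_ifs at hv0 <;> omega
        rcases hcase with hc | hc | hc
        · have h1 : pat (p.1 + 3) = 2 := by simp only [pat]; split_ifs <;> omega
          have h2 : pat p.1 = 1 := by simp only [pat]; split_ifs <;> omega
          have h3 := hle (sp (p.1 + 3) (by omega))
          rw [hspb, h1] at h3
          refine key (sp (p.1 + 2) (by omega)) (sp p.1 hp) (sp (p.1 + 3) (by omega))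
            (hsne _ _ _ _ (by omega)) (by omega) (by omega) ?_ ?_
          · rw [hdsp]
            have : |((p.1 + 2 : ℕ) : ℤ) - (p.1 : ℤ)| ≤ 2 := by rw [abs_le]; omega
            omega
          · rw [hdsp]
            have : |((p.1 + 2 : ℕ) : ℤ) - ((p.1 + 3 : ℕ) : ℤ)| ≤ 1 := by rw [abs_le]; omega
            omega
        · have h1 : pat (p.1 - 3) = 1 := by simp only [pat]; split_ifs <;> omega
          have h2 : pat p.1 = 2 := by simp only [pat]; split_ifs <;> omega
          have h3 := hle (sp (p.1 - 3) (by omega))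
          rw [hspb, h1] at h3
          refine key (sp (p.1 - 2) (by omega)) (sp (p.1 - 3) (by omega)) (sp p.1 hp)
            (hsne _ _ _ _ (by omega)) (by omega) (by omega) ?_ ?_
          · rw [hdsp]
            have : |((p.1 - 2 : ℕ) : ℤ) - ((p.1 - 3 : ℕ) : ℤ)| ≤ 1 := by rw [abs_le]; omega
            omega
          · rw [hdsp]
            have : |((p.1 - 2 : ℕ) : ℤ) - (p.1 : ℤ)| ≤ 2 := by rw [abs_le]; omega
            omega
        · have h1 : pat (p.1 - 3) = 2 := by simp only [pat]; split_ifs <;> omega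
          have h2 : pat p.1 = 1 := by simp only [pat]; split_ifs <;> omega
          have h3 := hle (sp (p.1 - 3) (by omega))
          rw [hspb, h1] at h3
          refine key (sp (p.1 - 2) (by omega)) (sp p.1 hp) (sp (p.1 - 3) (by omega))
            (hsne _ _ _ _ (by omega)) (by omega) (by omega) ?_ ?_
          · rw [hdsp]
            have : |((p.1 - 2 : ℕ) : ℤ) - (p.1 : ℤ)| ≤ 2 := by rw [abs_le]; omega
            omega
          · rw [hdsp]
            have : |((p.1 - 2 : ℕ) : ℤ) - ((p.1 - 3 : ℕ) : ℤ)| ≤ 1 := by rw [abs_le]; omega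
            omega
      · simp [bc] at hv0

lemma ibn_le (t : ℕ) (ht0 : 0 < t) : ibn (G (3 * t) m) ≤ 4 * t :=
  Nat.sInf_le ⟨bc, upper t ht0, cost_bc t m⟩

lemma le_ih (t : ℕ) (ht0 : 0 < t) (hm : 9 * t ≤ 2 * m) : 9 * t ≤ 2 * ih (G (3 * t) m) + 1 := by
  have hk : 0 < 3 * t := by omega
  have hne : {c | ∃ f, IsMaximalBc (G (3 * t) m) (HearIndep (G (3 * t) m)) f ∧
      ∑ v, f v = c}.Nonempty := by
    obtain ⟨f, hf⟩ := exists_maximal (G (3 * t) m) (card_ne_one hk)
      (HearIndep (G (3 * t) m)) (fun u v _ h _ => absurd h (lt_irrefl 0))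
    exact ⟨_, f, hf, rfl⟩
  obtain ⟨f, hf, hc⟩ := Nat.sInf_mem hne
  have := lower hk (by omega) f hf
  rw [hc] at this
  have h2 : sInf {c | ∃ f, IsMaximalBc (G (3 * t) m) (HearIndep (G (3 * t) m)) f ∧
      ∑ v, f v = c} = ih (G (3 * t) m) := rfl
  omega

/-- **The difference `i_h - i_bn` is unbounded** (first part, answering the question), and in fact
`i_h/i_bn` comes arbitrarily close to at least `9/8` (second part). -/
theorem result :
    (∀ c : ℕ, ∃ (V : Type) (_ : Fintype V) (H : SimpleGraph V),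
      H.Connected ∧ ibn H + c ≤ ih H) ∧
    (∀ t : ℕ, 0 < t → ∃ (V : Type) (_ : Fintype V) (H : SimpleGraph V),
      H.Connected ∧ ibn H ≤ 4 * t ∧ 9 * t ≤ 2 * ih H + 1) := by
  have main : ∀ t : ℕ, 0 < t → ∃ (V : Type) (_ : Fintype V) (H : SimpleGraph V),
      H.Connected ∧ ibn H ≤ 4 * t ∧ 9 * t ≤ 2 * ih H + 1 := fun t ht0 =>
    ⟨CV (3 * t) (5 * t), inferInstance, G (3 * t) (5 * t), connected (by omega), ibn_le t ht0,
      le_ih t ht0 (by omega)⟩
  refine ⟨fun c => ?_, main⟩
  obtain ⟨V, hV, H, h1, h2, h3⟩ := main (2 * c + 1) (by omega)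
  exact ⟨V, hV, H, h1, by omega⟩

end Pool.Agent.Results.MP_511249_co.Caterpillar
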